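import Pool.Agent.Q44.MX.StmC

/-! Job MX-LBG of helper44: in almost all graphs there are many sets with a Laplacian of large
corank (second moment method). -/

set_option autoImplicit false

namespace Pool.Agent.Q239.MX

open Finset Module Q44.MX Filter
open scoped Classical

theorem ut_zero {s c : ℕ} (h : c < s) : ut s c = 0 := by
  unfold ut
  exact prod_eq_zero (mem_range.2 h) (Nat.sub_self _)

theorem ut_le (s c : ℕ) : ut s c ≤ 2 ^ (s * c) := by
  unfold ut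
  calc ∏ i ∈ range s, (2 ^ c - 2 ^ i) ≤ ∏ i ∈ range s, 2 ^ c :=
        prod_le_prod' fun i _ => Nat.sub_le _ _
    _ = 2 ^ (s * c) := by rw [prod_const, card_range, ← pow_mul, mul_comm]

theorem ft_nonneg (s b c : ℕ) : 0 ≤ ft s b c := by
  unfold ft
  split_ifs
  · exact Nat.cast_nonneg _
  · exact le_rfl

theorem ft_le_ut (s b c : ℕ) : ft s b c ≤ ut s c := by
  unfold ft
  split_ifs
  · exact le_rfl
  · exact Nat.cast_nonneg _

theorem ft_le (s b c : ℕ) : ft s b c ≤ 2 ^ (s * (s + b)) := by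
  unfold ft
  split_ifs with h
  · calc (ut s c : ℝ) ≤ ((2 ^ (s * c) : ℕ) : ℝ) := by exact_mod_cast ut_le s c
      _ = 2 ^ (s * c) := by push_cast; rfl
      _ ≤ 2 ^ (s * (s + b)) := pow_le_pow_right₀ (by norm_num) (Nat.mul_le_mul_left s h)
  · positivity

theorem le_of_ft_pos {s b c : ℕ} (h : 0 < ft s b c) : s ≤ c := by
  by_contra hc
  push Not at hc
  unfold ft at h
  rw [ut_zero hc] at h
  simp at h

/-- Chebyshev -/
theorem cheb {Ω : Type} [Fintype Ω] (X : Ω → ℝ) (μ η₁ η₂ : ℝ) (hμ : 0 < μ)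
    (h1 : Fintype.card Ω * μ * (1 - η₁) ≤ ∑ g, X g)
    (h2 : ∑ g, X g ^ 2 ≤ Fintype.card Ω * μ ^ 2 * (1 + η₂)) :
    ((univ.filter fun g => X g < μ / 2).card : ℝ) ≤ 4 * (η₂ + 2 * η₁) * Fintype.card Ω := by
  have h3 : ∑ g, (X g - μ) ^ 2 ≤ Fintype.card Ω * μ ^ 2 * (η₂ + 2 * η₁) := by
    have h4 : ∑ g, (X g - μ) ^ 2 = ∑ g, X g ^ 2 - 2 * μ * ∑ g, X g + Fintype.card Ω * μ ^ 2 := by
      rw [mul_sum, ← sum_sub_distrib]
      have h5 : (Fintype.card Ω : ℝ) * μ ^ 2 = ∑ g : Ω, μ ^ 2 := by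
        rw [sum_const, card_univ, nsmul_eq_mul]
      rw [h5, ← sum_add_distrib]
      exact sum_congr rfl fun g _ => by ring
    have h6 := mul_le_mul_of_nonneg_left h1 (by positivity : 0 ≤ 2 * μ)
    rw [h4]
    nlinarith
  have h7 : ((univ.filter fun g => X g < μ / 2).card : ℝ) * (μ ^ 2 / 4) ≤ ∑ g, (X g - μ) ^ 2 := by
    calc ((univ.filter fun g => X g < μ / 2).card : ℝ) * (μ ^ 2 / 4) =
        ∑ g ∈ univ.filter fun g => X g < μ / 2, μ ^ 2 / 4 := by rw [sum_const, nsmul_eq_mul]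
      _ ≤ ∑ g ∈ univ.filter fun g => X g < μ / 2, (X g - μ) ^ 2 := by
          refine sum_le_sum fun g hg => ?_
          have h8 := (mem_filter.1 hg).2
          nlinarith
      _ ≤ ∑ g, (X g - μ) ^ 2 :=
          sum_le_sum_of_subset_of_nonneg (filter_subset _ _) fun g _ _ => sq_nonneg _
  have h9 : 0 < μ ^ 2 / 4 := by positivity
  have h10 : ((univ.filter fun g => X g < μ / 2).card : ℝ) * (μ ^ 2 / 4) ≤
      (4 * (η₂ + 2 * η₁) * Fintype.card Ω) * (μ ^ 2 / 4) := by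
    refine (h7.trans h3).trans (le_of_eq ?_)
    ring
  exact le_of_mul_le_mul_right h10 h9

section comb

variable {ι : Type} [Fintype ι]

theorem small_count (R k : ℕ) : ((univ.filter fun A : Finset ι => A.card ≤ R).card : ℝ) ≤
    (1 + 1 / 2 ^ k) ^ Fintype.card ι * 2 ^ (k * R) := by
  have h1 := Finset.sum_pow_mul_eq_add_pow (1 / 2 ^ k : ℝ) 1 (univ : Finset ι)
  simp only [one_pow, mul_one] at h1
  have h2 : ((univ.filter fun A : Finset ι => A.card ≤ R).card : ℝ) * (1 / 2 ^ k) ^ R ≤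
      (1 / 2 ^ k + 1) ^ Fintype.card ι := by
    rw [← card_univ, ← h1, powerset_univ]
    calc ((univ.filter fun A : Finset ι => A.card ≤ R).card : ℝ) * (1 / 2 ^ k) ^ R =
        ∑ A ∈ univ.filter (fun A : Finset ι => A.card ≤ R), ((1 : ℝ) / 2 ^ k) ^ R := by
          rw [sum_const, nsmul_eq_mul]
      _ ≤ ∑ A ∈ univ.filter (fun A : Finset ι => A.card ≤ R), ((1 : ℝ) / 2 ^ k) ^ A.card := by
          refine sum_le_sum fun A hA => ?_
          refine pow_le_pow_of_le_one (by positivity) ?_ (mem_filter.1 hA).2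
          rw [div_le_one (by positivity)]
          exact one_le_pow₀ (by norm_num)
      _ ≤ ∑ A : Finset ι, ((1 : ℝ) / 2 ^ k) ^ A.card :=
          sum_le_sum_of_subset_of_nonneg (filter_subset _ _) fun A _ _ => by positivity
  have h3 : ((1 : ℝ) / 2 ^ k) ^ R * 2 ^ (k * R) = 1 := by
    rw [pow_mul, ← mul_pow, one_div, inv_mul_cancel₀ (by positivity), one_pow]
  calc ((univ.filter fun A : Finset ι => A.card ≤ R).card : ℝ) =
      (((univ.filter fun A : Finset ι => A.card ≤ R).card : ℝ) * (1 / 2 ^ k) ^ R) *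
        2 ^ (k * R) := by rw [mul_assoc, h3, mul_one]
    _ ≤ (1 / 2 ^ k + 1) ^ Fintype.card ι * 2 ^ (k * R) :=
        mul_le_mul_of_nonneg_right h2 (by positivity)
    _ = _ := by rw [add_comm]

theorem near_count (h R k : ℕ) (B : Finset ι) (hB : B.card = h) :
    (((powersetCard h univ).filter fun B' : Finset ι => (B \ B').card ≤ R).card : ℝ) ≤
      ((1 + 1 / 2 ^ k) ^ Fintype.card ι * 2 ^ (k * R)) ^ 2 := by
  set 𝒮 := univ.filter fun A : Finset ι => A.card ≤ R with h𝒮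
  have h1 : ((powersetCard h univ).filter fun B' : Finset ι => (B \ B').card ≤ R).card ≤
      (𝒮 ×ˢ 𝒮).card := by
    refine card_le_card_of_injOn (fun B' => (B \ B', B' \ B)) ?_ ?_
    · intro B' hB'
      have h2 := mem_filter.1 hB'
      have h3 := (mem_powersetCard.1 h2.1).2
      have h4 : (B' \ B).card = (B \ B').card := by
        have e1 := card_sdiff_add_card_inter B B'
        have e2 := card_sdiff_add_card_inter B' B
        rw [inter_comm] at e2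
        omega
      refine mem_coe.2 (mem_product.2 ⟨mem_filter.2 ⟨mem_univ _, h2.2⟩,
        mem_filter.2 ⟨mem_univ _, ?_⟩⟩)
      show (B' \ B).card ≤ R
      rw [h4]
      exact h2.2
    · intro B₁ _ B₂ _ h12
      have h3 : B \ B₁ = B \ B₂ := congrArg Prod.fst h12
      have h4 : B₁ \ B = B₂ \ B := congrArg Prod.snd h12
      ext x
      have h5 : x ∈ B \ B₁ ↔ x ∈ B \ B₂ := by rw [h3]
      have h6 : x ∈ B₁ \ B ↔ x ∈ B₂ \ B := by rw [h4]
      rw [Finset.mem_sdiff, Finset.mem_sdiff] at h5 h6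
      tauto
  have h2 := small_count (ι := ι) R k
  calc _ ≤ (((𝒮 ×ˢ 𝒮).card : ℕ) : ℝ) := by exact_mod_cast h1
    _ = (𝒮.card : ℝ) ^ 2 := by rw [card_product]; push_cast; ring
    _ ≤ _ := pow_le_pow_left₀ (Nat.cast_nonneg _) h2 2

theorem card_om : (Fintype.card (Sym2 ι → ZMod 2) : ℝ) = 2 ^ Fintype.card (Sym2 ι) := by
  rw [Fintype.card_fun, ZMod.card]
  push_cast
  rfl

theorem sq_M (s : ℕ) : ((2 : ℝ) ^ (s * (s - 1) / 2)) ^ 2 = 2 ^ (s * (s - 1)) := by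
  rw [← pow_mul]
  congr 1
  exact Nat.div_mul_cancel (Nat.even_mul_pred_self s).two_dvd

/-- the second moment argument -/
theorem core (h1 : S_PAIR) (h2 : S_ONE) (ε : ℝ) (hε : 0 < ε) (s b w k : ℕ)
    (hn : 2 ≤ Fintype.card ι) (hw : 1 ≤ w) (hb : (1 : ℝ) / 2 ^ b ≤ ε / 64)
    (hw2 : (1 + 4 / (2 : ℝ) ^ w) ^ 2 ≤ 1 + ε / 32)
    (H1 : (2 : ℝ) ^ s / 2 ^ (Fintype.card ι / 2 - 1) ≤ ε / 64)
    (H2 : ∀ t : ℕ, Fintype.card ι / 2 ^ k ≤ t → s + w ≤ t ∧
      (2 : ℝ) ^ (2 * (s * (s + b)) + 6) / 2 ^ ((t - s - w) ^ 2 / 2) ≤ ε / 64)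
    (H3 : ((1 + 1 / 2 ^ k) ^ Fintype.card ι * 2 ^ (k * (Fintype.card ι / 2 ^ k))) ^ 2 *
      2 ^ (s * (s + b)) ≤ ε / 64 * (((powersetCard (Fintype.card ι / 2)
        (univ : Finset ι)).card : ℝ) * 2 ^ (s * (s - 1) / 2))) :
    ((univ.filter fun g : Sym2 ι → ZMod 2 =>
      ∑ B ∈ powersetCard (Fintype.card ι / 2) univ, ft s b (cr g B) <
        (((powersetCard (Fintype.card ι / 2) (univ : Finset ι)).card : ℝ) *
          2 ^ (s * (s - 1) / 2)) / 2).card : ℝ) ≤ ε * 2 ^ Fintype.card (Sym2 ι) := by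
  set n := Fintype.card ι with hnd
  set 𝒯 := powersetCard (n / 2) (univ : Finset ι) with h𝒯
  set M : ℝ := 2 ^ (s * (s - 1) / 2) with hM
  set F : ℝ := 2 ^ (s * (s + b)) with hF
  set N := Fintype.card (Sym2 ι) with hN
  set D : ℝ := ((1 + 1 / 2 ^ k) ^ n * 2 ^ (k * (n / 2 ^ k))) ^ 2 with hD
  have hM0 : 0 < M := by positivity
  have hM1 : 1 ≤ M := one_le_pow₀ (by norm_num)
  have hF0 : 0 < F := by positivity
  have h𝒯0 : 0 < (𝒯.card : ℝ) := by
    rw [h𝒯, card_powersetCard, card_univ, ← hnd]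
    exact_mod_cast Nat.choose_pos (Nat.div_le_self n 2)
  have hcardB : ∀ B ∈ 𝒯, B.card = (n / 2 - 1) + 1 := by
    intro B hB
    rw [(mem_powersetCard.1 hB).2]
    omega
  have hmean : (Fintype.card (Sym2 ι → ZMod 2) : ℝ) * (𝒯.card * M) * (1 - ε / 32) ≤
      ∑ g : Sym2 ι → ZMod 2, ∑ B ∈ 𝒯, ft s b (cr g B) := by
    rw [sum_comm, card_om, ← hN]
    have h3 : ∀ B ∈ 𝒯, (2 : ℝ) ^ N * M * (1 - ε / 32) ≤
        ∑ g : Sym2 ι → ZMod 2, ft s b (cr g B) := by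
      intro B hB
      refine le_trans ?_ (h2 ι B s b (n / 2 - 1) (hcardB B hB)).2
      refine mul_le_mul_of_nonneg_left ?_ (by positivity)
      linarith
    calc (2 : ℝ) ^ N * (𝒯.card * M) * (1 - ε / 32) =
        ∑ B ∈ 𝒯, (2 : ℝ) ^ N * M * (1 - ε / 32) := by rw [sum_const, nsmul_eq_mul]; ring
      _ ≤ _ := sum_le_sum h3
  have hnear : ∀ B ∈ 𝒯, ∀ B' ∈ 𝒯, ∑ g : Sym2 ι → ZMod 2, ft s b (cr g B) * ft s b (cr g B') ≤
      2 ^ N * (F * M) := by
    intro B hB B' _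
    calc ∑ g : Sym2 ι → ZMod 2, ft s b (cr g B) * ft s b (cr g B') ≤
        ∑ g : Sym2 ι → ZMod 2, (ut s (cr g B) : ℝ) * F := by
          refine sum_le_sum fun g _ => ?_
          exact mul_le_mul (ft_le_ut _ _ _) (ft_le _ _ _) (ft_nonneg _ _ _) (Nat.cast_nonneg _)
      _ = (∑ g : Sym2 ι → ZMod 2, (ut s (cr g B) : ℝ)) * F := by rw [sum_mul]
      _ ≤ (2 ^ N * M) * F :=
          mul_le_mul_of_nonneg_right (h2 ι B s b (n / 2 - 1) (hcardB B hB)).1 hF0.le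
      _ = _ := by ring
  have hfar : ∀ B ∈ 𝒯, ∀ B' ∈ 𝒯, n / 2 ^ k < (B \ B').card →
      ∑ g : Sym2 ι → ZMod 2, ft s b (cr g B) * ft s b (cr g B') ≤
      2 ^ N * (M ^ 2 * (1 + 3 * ε / 64)) := by
    intro B hB B' hB' hlt
    have hpos : 0 < (B \ B').card := lt_of_le_of_lt (Nat.zero_le _) hlt
    obtain ⟨t, ht⟩ : ∃ t, (B \ B').card = t + 1 := ⟨(B \ B').card - 1, by omega⟩
    have h4 : (B' \ B).card = t + 1 := by
      have e1 := card_sdiff_add_card_inter B B'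
      have e2 := card_sdiff_add_card_inter B' B
      have e3 := hcardB B hB
      have e4 := hcardB B' hB'
      rw [inter_comm] at e2
      omega
    obtain ⟨h5, h6⟩ := H2 t (by omega)
    refine (h1 ι B B' s b t w ht h4 h5 hw).trans ?_
    refine mul_le_mul_of_nonneg_left ?_ (by positivity)
    rw [← sq_M, ← hM]
    have h7 : M ^ 2 * (1 + 4 / (2 : ℝ) ^ w) ^ 2 ≤ M ^ 2 * (1 + ε / 32) :=
      mul_le_mul_of_nonneg_left hw2 (by positivity)
    have h8 : ε / 64 ≤ M ^ 2 * (ε / 64) := by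
      have : 1 ≤ M ^ 2 := one_le_pow₀ hM1
      nlinarith
    linarith
  have hsec : ∑ g : Sym2 ι → ZMod 2, (∑ B ∈ 𝒯, ft s b (cr g B)) ^ 2 ≤
      (Fintype.card (Sym2 ι → ZMod 2) : ℝ) * (𝒯.card * M) ^ 2 * (1 + ε / 16) := by
    rw [card_om, ← hN]
    have h3 : ∑ g : Sym2 ι → ZMod 2, (∑ B ∈ 𝒯, ft s b (cr g B)) ^ 2 =
        ∑ B ∈ 𝒯, ∑ B' ∈ 𝒯, ∑ g : Sym2 ι → ZMod 2, ft s b (cr g B) * ft s b (cr g B') := by
      have h4 : ∀ g : Sym2 ι → ZMod 2, (∑ B ∈ 𝒯, ft s b (cr g B)) ^ 2 =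
          ∑ B ∈ 𝒯, ∑ B' ∈ 𝒯, ft s b (cr g B) * ft s b (cr g B') := by
        intro g
        rw [sq, sum_mul_sum]
      rw [sum_congr rfl fun g _ => h4 g, sum_comm]
      exact sum_congr rfl fun B _ => sum_comm
    have h5 : ∀ B ∈ 𝒯, ∑ B' ∈ 𝒯, ∑ g : Sym2 ι → ZMod 2, ft s b (cr g B) * ft s b (cr g B') ≤
        2 ^ N * (𝒯.card * M ^ 2 * (1 + ε / 16)) := by
      intro B hB
      rw [← sum_filter_add_sum_filter_not 𝒯 (fun B' => (B \ B').card ≤ n / 2 ^ k)]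
      have h6 : ∑ B' ∈ 𝒯.filter (fun B' => (B \ B').card ≤ n / 2 ^ k),
          ∑ g : Sym2 ι → ZMod 2, ft s b (cr g B) * ft s b (cr g B') ≤
          2 ^ N * (𝒯.card * M ^ 2 * (ε / 64)) := by
        calc _ ≤ ∑ B' ∈ 𝒯.filter (fun B' => (B \ B').card ≤ n / 2 ^ k), 2 ^ N * (F * M) :=
              sum_le_sum fun B' hB' => hnear B hB B' (mem_filter.1 hB').1
          _ = ((𝒯.filter (fun B' => (B \ B').card ≤ n / 2 ^ k)).card : ℝ) *
              (2 ^ N * (F * M)) := by rw [sum_const, nsmul_eq_mul]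
          _ ≤ D * (2 ^ N * (F * M)) :=
              mul_le_mul_of_nonneg_right
                (near_count (n / 2) (n / 2 ^ k) k B (mem_powersetCard.1 hB).2) (by positivity)
          _ = 2 ^ N * M * (D * F) := by ring
          _ ≤ 2 ^ N * M * (ε / 64 * (𝒯.card * M)) :=
              mul_le_mul_of_nonneg_left H3 (by positivity)
          _ = _ := by ring
      have h7 : ∑ B' ∈ 𝒯.filter (fun B' => ¬ (B \ B').card ≤ n / 2 ^ k),
          ∑ g : Sym2 ι → ZMod 2, ft s b (cr g B) * ft s b (cr g B') ≤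
          2 ^ N * (𝒯.card * M ^ 2 * (1 + 3 * ε / 64)) := by
        calc _ ≤ ∑ B' ∈ 𝒯.filter (fun B' => ¬ (B \ B').card ≤ n / 2 ^ k),
              2 ^ N * (M ^ 2 * (1 + 3 * ε / 64)) :=
              sum_le_sum fun B' hB' => hfar B hB B' (mem_filter.1 hB').1
                (not_le.1 (mem_filter.1 hB').2)
          _ = ((𝒯.filter (fun B' => ¬ (B \ B').card ≤ n / 2 ^ k)).card : ℝ) *
              (2 ^ N * (M ^ 2 * (1 + 3 * ε / 64))) := by rw [sum_const, nsmul_eq_mul]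
          _ ≤ 𝒯.card * (2 ^ N * (M ^ 2 * (1 + 3 * ε / 64))) := by
              refine mul_le_mul_of_nonneg_right ?_ (by positivity)
              exact_mod_cast card_le_card (filter_subset _ _)
          _ = _ := by ring
      refine (add_le_add h6 h7).trans (le_of_eq ?_)
      ring
    rw [h3]
    calc _ ≤ ∑ B ∈ 𝒯, 2 ^ N * (𝒯.card * M ^ 2 * (1 + ε / 16)) := sum_le_sum h5
      _ = _ := by rw [sum_const, nsmul_eq_mul]; ring
  have h9 := cheb (fun g : Sym2 ι → ZMod 2 => ∑ B ∈ 𝒯, ft s b (cr g B)) (𝒯.card * M) (ε / 32)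
    (ε / 16) (by positivity) hmean hsec
  refine h9.trans ?_
  rw [card_om, ← hN]
  refine mul_le_mul_of_nonneg_right ?_ (by positivity)
  linarith

end comb

/-! ### Numerical conditions -/

theorem small_s (A δ : ℝ) (hA : 0 ≤ A) (hδ : 0 < δ) :
    ∀ᶠ n : ℕ in atTop, ∀ s : ℕ, (s : ℝ) ^ 2 ≤ 2 * n → A * s ≤ δ * n := by
  obtain ⟨n₀, hn₀⟩ := exists_nat_ge (2 * A ^ 2 / δ ^ 2)
  filter_upwards [eventually_ge_atTop n₀] with n hn s hs
  have h1 : 2 * A ^ 2 / δ ^ 2 ≤ n := hn₀.trans (by exact_mod_cast hn)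
  rw [div_le_iff₀ (by positivity)] at h1
  have hn0 : (0 : ℝ) ≤ n := Nat.cast_nonneg n
  have h2 : (A * s) ^ 2 ≤ (δ * n) ^ 2 := by
    calc (A * s) ^ 2 = A ^ 2 * (s : ℝ) ^ 2 := by ring
      _ ≤ A ^ 2 * (2 * n) := mul_le_mul_of_nonneg_left hs (sq_nonneg A)
      _ = (2 * A ^ 2) * n := by ring
      _ ≤ (n * δ ^ 2) * n := mul_le_mul_of_nonneg_right h1 hn0
      _ = (δ * n) ^ 2 := by ring
  exact (abs_le_of_sq_le_sq' h2 (by positivity)).2

theorem exp_big (a : ℝ) (ha : 0 < a) : ∀ᶠ n : ℕ in atTop, (n : ℝ) + 1 ≤ (2 : ℝ) ^ (a * n) := by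
  have hr0 : (0 : ℝ) ≤ (2 : ℝ) ^ (-a) := by positivity
  have hr1 : (2 : ℝ) ^ (-a) < 1 := Real.rpow_lt_one_of_one_lt_of_neg (by norm_num) (by linarith)
  have h1 := tendsto_self_mul_const_pow_of_lt_one hr0 hr1
  have h2 := tendsto_pow_atTop_nhds_zero_of_lt_one hr0 hr1
  have h3 := h1.add h2
  rw [add_zero] at h3
  filter_upwards [h3.eventually (gt_mem_nhds (show (0 : ℝ) < 1 by norm_num))] with n hn
  have h4 : ((2 : ℝ) ^ (-a)) ^ n * (2 : ℝ) ^ (a * n) = 1 := by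
    rw [← Real.rpow_natCast, ← Real.rpow_mul (by norm_num), ← Real.rpow_add (by norm_num)]
    have : -a * (n : ℝ) + a * n = 0 := by ring
    rw [this, Real.rpow_zero]
  have h5 : (0 : ℝ) < (2 : ℝ) ^ (a * n) := by positivity
  have h6 : ((n : ℝ) + 1) * ((2 : ℝ) ^ (-a)) ^ n ≤ 1 := by linarith
  calc (n : ℝ) + 1 = ((n : ℝ) + 1) * (((2 : ℝ) ^ (-a)) ^ n * (2 : ℝ) ^ (a * n)) := by
        rw [h4, mul_one]
    _ = (((n : ℝ) + 1) * ((2 : ℝ) ^ (-a)) ^ n) * (2 : ℝ) ^ (a * n) := by ring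
    _ ≤ 1 * (2 : ℝ) ^ (a * n) := mul_le_mul_of_nonneg_right h6 h5.le
    _ = _ := one_mul _

theorem exists_k (δ : ℝ) (hδ : 0 < δ) : ∃ k : ℕ, ((k : ℝ) + 2) / 2 ^ k ≤ δ := by
  have h1 := tendsto_self_mul_const_pow_of_lt_one (r := (1 / 2 : ℝ)) (by norm_num) (by norm_num)
  have h2 := (tendsto_pow_atTop_nhds_zero_of_lt_one (r := (1 / 2 : ℝ)) (by norm_num)
    (by norm_num)).const_mul (2 : ℝ)
  have h3 := h1.add h2
  rw [mul_zero, add_zero] at h3
  obtain ⟨k, hk⟩ := (h3.eventually (gt_mem_nhds hδ)).exists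
  refine ⟨k, le_trans (le_of_eq ?_) hk.le⟩
  rw [div_pow, one_pow]
  ring

theorem D_bound (δ : ℝ) (k n : ℕ) (hk : ((k : ℝ) + 2) / 2 ^ k ≤ δ / 16) :
    ((1 + 1 / (2 : ℝ) ^ k) ^ n * 2 ^ (k * (n / 2 ^ k))) ^ 2 ≤ (2 : ℝ) ^ (δ / 8 * n) := by
  have hx : (0 : ℝ) < 1 / 2 ^ k := by positivity
  have h1 : 1 + 1 / (2 : ℝ) ^ k ≤ (2 : ℝ) ^ (2 * (1 / (2 : ℝ) ^ k)) := by
    have h2 := Real.add_one_le_exp (1 / (2 : ℝ) ^ k)
    have h3 : Real.exp (1 / (2 : ℝ) ^ k) ≤ (2 : ℝ) ^ (2 * (1 / (2 : ℝ) ^ k)) := by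
      rw [Real.rpow_def_of_pos (by norm_num)]
      refine Real.exp_le_exp.2 ?_
      have h4 := Real.log_two_gt_d9
      nlinarith
    linarith
  have h5 : (1 + 1 / (2 : ℝ) ^ k) ^ n ≤ (2 : ℝ) ^ (2 * (1 / (2 : ℝ) ^ k) * n) := by
    rw [Real.rpow_mul (by norm_num), Real.rpow_natCast]
    exact pow_le_pow_left₀ (by positivity) h1 n
  have h6 : (2 : ℝ) ^ (k * (n / 2 ^ k)) ≤ (2 : ℝ) ^ ((k : ℝ) * (n / 2 ^ k)) := by
    rw [← Real.rpow_natCast]
    refine Real.rpow_le_rpow_of_exponent_le (by norm_num) ?_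
    push_cast
    refine mul_le_mul_of_nonneg_left ?_ (Nat.cast_nonneg k)
    have h7 : ((n / 2 ^ k : ℕ) : ℝ) ≤ (n : ℝ) / ((2 ^ k : ℕ) : ℝ) := Nat.cast_div_le
    push_cast at h7
    exact h7
  have h8 : (1 + 1 / (2 : ℝ) ^ k) ^ n * 2 ^ (k * (n / 2 ^ k)) ≤ (2 : ℝ) ^ (δ / 16 * n) := by
    refine (mul_le_mul h5 h6 (by positivity) (by positivity)).trans ?_
    rw [← Real.rpow_add (by norm_num)]
    refine Real.rpow_le_rpow_of_exponent_le (by norm_num) ?_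
    have h9 : 2 * (1 / (2 : ℝ) ^ k) * n + (k : ℝ) * (n / 2 ^ k) = ((k : ℝ) + 2) / 2 ^ k * n := by
      ring
    rw [h9]
    exact mul_le_mul_of_nonneg_right hk (Nat.cast_nonneg n)
  calc _ ≤ ((2 : ℝ) ^ (δ / 16 * n)) ^ 2 := pow_le_pow_left₀ (by positivity) h8 2
    _ = (2 : ℝ) ^ (δ / 8 * n) := by
        rw [← Real.rpow_natCast, ← Real.rpow_mul (by norm_num)]
        congr 1
        push_cast
        ring

theorem exp_M (s : ℕ) : (2 : ℝ) ^ (s * (s - 1) / 2) = (2 : ℝ) ^ (((s : ℝ) ^ 2 - s) / 2) := by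
  rw [← Real.rpow_natCast]
  congr 1
  have h1 : s * (s - 1) / 2 * 2 = s * (s - 1) := Nat.div_mul_cancel (Nat.even_mul_pred_self s).two_dvd
  have h2 : s * (s - 1) / 2 * 2 + s = s * s := by
    rw [h1]
    cases s with
    | zero => rfl
    | succ s => simp only [Nat.add_sub_cancel]; ring
  have h3 : ((s * (s - 1) / 2 : ℕ) : ℝ) * 2 + s = s * s := by exact_mod_cast h2
  linarith

theorem middle (n : ℕ) : (2 : ℝ) ^ n ≤ ((n : ℝ) + 1) * (n.choose (n / 2) : ℝ) := by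
  have h1 : 2 ^ n ≤ (n + 1) * n.choose (n / 2) := by
    rw [← Nat.sum_range_choose n]
    calc ∑ i ∈ range (n + 1), n.choose i ≤ ∑ i ∈ range (n + 1), n.choose (n / 2) :=
          sum_le_sum fun i _ => Nat.choose_le_middle i n
      _ = _ := by rw [sum_const, card_range, smul_eq_mul]
  exact_mod_cast h1

/-- the condition for the distant pairs -/
theorem H2_cond {n s b w K t : ℕ} (hK : 0 < K) (h1 : 4 * K * s ≤ n) (h2 : 4 * K * (w + 1) ≤ n)
    (h3 : 48 * K ^ 2 ≤ n) (h4 : s ^ 2 ≤ 2 * n) (h5 : 4 * b * s ≤ n) (h6 : 12 + 2 * b ≤ n)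
    (ht : n / K ≤ t) : s + w ≤ t ∧ 2 * (s * (s + b)) + 6 + b ≤ (t - s - w) ^ 2 / 2 := by
  have h7 : n < K * (t + 1) := by
    have := Nat.lt_mul_div_succ n hK
    calc n < K * (n / K + 1) := this
      _ ≤ K * (t + 1) := Nat.mul_le_mul_left K (by omega)
  have h8 : s + w ≤ t := by
    by_contra hc
    push Not at hc
    have h9 : K * (t + 1) ≤ K * (s + w) := Nat.mul_le_mul_left K hc
    nlinarith
  refine ⟨h8, ?_⟩
  obtain ⟨v, rfl⟩ : ∃ v, t = s + w + v := ⟨t - (s + w), by omega⟩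
  have h9 : s + w + v - s - w = v := by omega
  rw [h9, Nat.le_div_iff_mul_le (by norm_num)]
  have h10 : n < 2 * (K * v) := by nlinarith
  have h11 : n * n < 4 * K ^ 2 * v ^ 2 := by
    calc n * n < (2 * (K * v)) * (2 * (K * v)) := Nat.mul_self_lt_mul_self h10
      _ = _ := by ring
  have h12 : 12 * n < v ^ 2 := by
    have h13 : 4 * K ^ 2 * (12 * n) < 4 * K ^ 2 * v ^ 2 := by
      calc 4 * K ^ 2 * (12 * n) = (48 * K ^ 2) * n := by ring
        _ ≤ n * n := Nat.mul_le_mul_right n h3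
        _ < _ := h11
    exact lt_of_mul_lt_mul_left h13 (Nat.zero_le _)
  nlinarith

/-- JOB MX-LBG -/
theorem t_LBG (h1 : S_PAIR) (h2 : S_ONE) : S_LBG := by
  intro ε hε
  set δ : ℝ := min ε 1 with hδd
  have hδ : 0 < δ := lt_min hε one_pos
  have hδε : δ ≤ ε := min_le_left _ _
  have hδ1 : δ ≤ 1 := min_le_right _ _
  obtain ⟨b, hb⟩ : ∃ b : ℕ, (1 : ℝ) / 2 ^ b ≤ δ / 64 := by
    obtain ⟨b, hb⟩ := exists_pow_lt_of_lt_one (show 0 < δ / 64 by positivity)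
      (show (1 / 2 : ℝ) < 1 by norm_num)
    refine ⟨b, ?_⟩
    rw [div_pow, one_pow] at hb
    exact hb.le
  obtain ⟨k, hk⟩ := exists_k (δ / 16) (by positivity)
  set w := b + 3 with hw
  have hw2 : (1 + 4 / (2 : ℝ) ^ w) ^ 2 ≤ 1 + δ / 32 := by
    have h3 : 4 / (2 : ℝ) ^ w = 1 / 2 ^ b / 2 := by
      rw [hw, pow_add]
      field_simp
      norm_num
    have h4 : 4 / (2 : ℝ) ^ w ≤ δ / 128 := by rw [h3]; linarith
    have h5 : 0 ≤ 4 / (2 : ℝ) ^ w := by positivity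
    nlinarith
  have hev := (((((small_s (4 * 2 ^ k) 1 (by positivity) one_pos).and
    (small_s (4 * b) 1 (by positivity) one_pos)).and
    (small_s (b + 1) (δ / 8) (by positivity) (by positivity))).and
    (exp_big (δ / 16) (by positivity))).and
    (eventually_ge_atTop (4 * 2 ^ k * (w + 1) + 48 * (2 ^ k) ^ 2 + 12 + 8 * b))).and
    (small_s 8 1 (by norm_num) one_pos)
  have hev2 : ∀ᶠ n : ℕ in atTop, ((b : ℝ) + 1) ≤ δ / 8 * n := by
    obtain ⟨n₁, hn₁⟩ := exists_nat_ge (((b : ℝ) + 1) / (δ / 8))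
    filter_upwards [eventually_ge_atTop n₁] with n hn
    have h3 : ((b : ℝ) + 1) / (δ / 8) ≤ n := hn₁.trans (by exact_mod_cast hn)
    rwa [div_le_iff₀ (by positivity), mul_comm] at h3
  obtain ⟨n₀, hn₀⟩ := eventually_atTop.1 (hev.and hev2)
  refine ⟨n₀, fun ι _ hι s hs => ?_⟩
  obtain ⟨⟨⟨⟨⟨⟨c1, c2⟩, c3⟩, c4⟩, c5⟩, c6⟩, c7⟩ := hn₀ _ hι
  set n := Fintype.card ι with hnd
  have hn0 : (0 : ℝ) ≤ n := Nat.cast_nonneg n
  have hsδ : (s : ℝ) ^ 2 ≤ (2 - δ) * n := by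
    refine hs.trans (mul_le_mul_of_nonneg_right (by linarith) hn0)
  have hs2 : (s : ℝ) ^ 2 ≤ 2 * n := by
    refine hsδ.trans (mul_le_mul_of_nonneg_right (by linarith) hn0)
  have d1 : 4 * 2 ^ k * s ≤ n := by
    have := c1 s hs2
    rw [one_mul] at this
    exact_mod_cast this
  have d2 : 4 * b * s ≤ n := by
    have := c2 s hs2
    rw [one_mul] at this
    exact_mod_cast this
  have d3 := c3 s hs2
  have d4 : s ^ 2 ≤ 2 * n := by exact_mod_cast hs2
  have d6 : 8 * s ≤ n := by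
    have := c6 s hs2
    rw [one_mul] at this
    exact_mod_cast this
  have e1 : 4 * 2 ^ k * (w + 1) ≤ n := le_trans (by omega) c5
  have e2 : 48 * (2 ^ k) ^ 2 ≤ n := le_trans (by omega) c5
  have e3 : 12 + 8 * b ≤ n := le_trans (by omega) c5
  have hcT : ((powersetCard (n / 2) (univ : Finset ι)).card : ℝ) = (n.choose (n / 2) : ℝ) := by
    rw [card_powersetCard, card_univ, ← hnd]
  set T : ℝ := (n.choose (n / 2) : ℝ) with hT
  have hTlow : (2 : ℝ) ^ ((n : ℝ) - δ / 16 * n) ≤ T := by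
    have h3 := middle n
    rw [Real.rpow_sub (by norm_num), Real.rpow_natCast, div_le_iff₀ (by positivity)]
    refine h3.trans ?_
    rw [mul_comm]
    exact mul_le_mul_of_nonneg_left c4 (Nat.cast_nonneg _)
  have hT0 : 0 < T := lt_of_lt_of_le (by positivity) hTlow
  have hF : (2 : ℝ) ^ (s * (s + b)) = (2 : ℝ) ^ ((s : ℝ) ^ 2 + s * b) := by
    rw [← Real.rpow_natCast]
    congr 1
    push_cast
    ring
  have hbb : (2 : ℝ) ^ (-(b : ℝ)) ≤ δ / 64 := by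
    rw [Real.rpow_neg (by norm_num), Real.rpow_natCast, ← one_div]
    exact hb
  have key := core h1 h2 (ι := ι) δ hδ s b w k (by omega) (by omega) hb hw2 ?_ ?_ ?_
  · rw [← hnd, hcT] at key
    refine le_trans ?_ (key.trans (mul_le_mul_of_nonneg_right hδε (by positivity)))
    rw [Nat.cast_le]
    refine card_le_card fun g hg => ?_
    refine mem_filter.2 ⟨mem_univ _, ?_⟩
    by_contra hc
    push Not at hc
    have hg2 := (mem_filter.1 hg).2
    apply absurd hg2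
    rw [not_lt]
    have h3 : ∑ B ∈ powersetCard (n / 2) univ, ft s b (cr g B) ≤
        ((univ.filter fun B : Finset ι => s ≤ cr g B).card : ℝ) * 2 ^ (s * (s + b)) := by
      calc ∑ B ∈ powersetCard (n / 2) univ, ft s b (cr g B) ≤
          ∑ B : Finset ι, ft s b (cr g B) :=
            sum_le_sum_of_subset_of_nonneg (subset_univ _) fun B _ _ => ft_nonneg _ _ _
        _ = ∑ B ∈ univ.filter (fun B : Finset ι => s ≤ cr g B), ft s b (cr g B) := by
            refine (sum_subset (filter_subset _ _) fun B _ hB => ?_).symm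
            by_contra h0
            have h4 : 0 < ft s b (cr g B) := lt_of_le_of_ne (ft_nonneg _ _ _) (Ne.symm h0)
            exact hB (mem_filter.2 ⟨mem_univ _, le_of_ft_pos h4⟩)
        _ ≤ ∑ B ∈ univ.filter (fun B : Finset ι => s ≤ cr g B), (2 : ℝ) ^ (s * (s + b)) :=
            sum_le_sum fun B _ => ft_le _ _ _
        _ = _ := by rw [sum_const, nsmul_eq_mul]
    have h5 : (2 : ℝ) ^ ((n : ℝ) - (s : ℝ) ^ 2 / 2 - ε * n) * 2 ^ (s * (s + b)) ≤
        T * 2 ^ (s * (s - 1) / 2) / 2 := by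
      rw [hF, exp_M, ← Real.rpow_add (by norm_num), le_div_iff₀ (by norm_num)]
      have h6 : (2 : ℝ) ^ ((n : ℝ) - (s : ℝ) ^ 2 / 2 - ε * n + ((s : ℝ) ^ 2 + s * b)) * 2 =
          (2 : ℝ) ^ ((n : ℝ) - (s : ℝ) ^ 2 / 2 - ε * n + ((s : ℝ) ^ 2 + s * b) + 1) := by
        rw [Real.rpow_add_one (by norm_num)]
      rw [h6]
      refine le_trans ?_ (mul_le_mul_of_nonneg_right hTlow (by positivity))
      rw [← Real.rpow_add (by norm_num)]
      refine Real.rpow_le_rpow_of_exponent_le (by norm_num) ?_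
      have h7 : δ * n ≤ ε * n := mul_le_mul_of_nonneg_right hδε hn0
      have h8 : (0 : ℝ) ≤ s := Nat.cast_nonneg s
      have h9 : (0 : ℝ) ≤ b := Nat.cast_nonneg b
      have h10 : 0 ≤ δ * n := by positivity
      nlinarith
    have h11 : (0 : ℝ) < 2 ^ (s * (s + b)) := by positivity
    exact le_of_mul_le_mul_right (h5.trans (hc.trans h3)) h11
  · -- H1
    refine le_trans ?_ hb
    rw [div_le_div_iff₀ (by positivity) (by positivity), one_mul, ← pow_add]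
    exact pow_le_pow_right₀ (by norm_num) (by omega)
  · -- H2
    intro t ht
    obtain ⟨h3, h4⟩ := H2_cond (b := b) (w := w) (pow_pos (by norm_num : 0 < 2) k) d1 e1 e2 d4 d2
      (by omega) ht
    refine ⟨h3, le_trans ?_ hb⟩
    rw [div_le_div_iff₀ (by positivity) (by positivity), one_mul, ← pow_add]
    exact pow_le_pow_right₀ (by norm_num) h4
  · -- H3
    rw [hcT, ← hnd, exp_M, hF]
    refine (mul_le_mul_of_nonneg_right (D_bound δ k n hk) (by positivity)).trans ?_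
    rw [← Real.rpow_add (by norm_num)]
    refine le_trans ?_ (mul_le_mul hbb (mul_le_mul_of_nonneg_right hTlow (by positivity))
      (by positivity) (by positivity))
    rw [← Real.rpow_add (by norm_num), ← Real.rpow_add (by norm_num)]
    refine Real.rpow_le_rpow_of_exponent_le (by norm_num) ?_
    have h8 : (0 : ℝ) ≤ s := Nat.cast_nonneg s
    have h9 : (0 : ℝ) ≤ b := Nat.cast_nonneg b
    nlinarith

end Pool.Agent.Q239.MX
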